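import Mathlib

/-!
# A right-angled Artin group without sharply `k`-transitive order actions
-/

set_option autoImplicit false

namespace Pool.Agent.Results.MP_781439_al.RadoGraph

/-- the defining relators `[u,v]` (`u`, `v` adjacent) -/
def raagRels {V : Type*} (Γ : SimpleGraph V) : Set (FreeGroup V) :=
  {r | ∃ u v : V, Γ.Adj u v ∧
      r = FreeGroup.of u * FreeGroup.of v * (FreeGroup.of u)⁻¹ * (FreeGroup.of v)⁻¹}

/-- the right-angled Artin group `A_Γ` -/
abbrev RAAG {V : Type*} (Γ : SimpleGraph V) : Type _ := PresentedGroup (raagRels Γ)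

/-- `G` has an action on `ℚ` by order-preserving bijections such that for any two `k`-element
subsets `A`, `B` of `ℚ` there is exactly one `g` in `G` taking `A` to `B` -/
def HasSharplyTransitiveAction (G : Type*) [Group G] (k : ℕ) : Prop :=
  ∃ ρ : G →* (ℚ ≃o ℚ), ∀ A B : Finset ℚ, A.card = k → B.card = k →
    ∃! g : G, A.image (ρ g) = B

/-! ### Groups in which any two elements have a common commuting element -/

section action

variable {G : Type*} [Group G]

lemma fix_of_image_eq (ρ : G →* (ℚ ≃o ℚ)) (A : Finset ℚ) (g : G)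
    (h : ∀ a ∈ A, ρ g a ∈ A) : ∀ a ∈ A, ρ g a = a := by
  have himg : A.image (ρ g) = A := by
    apply Finset.eq_of_subset_of_card_le
    · intro x hx
      rw [Finset.mem_image] at hx
      obtain ⟨a, ha, rfl⟩ := hx
      exact h a ha
    · rw [Finset.card_image_of_injective _ (ρ g).injective]
  have h1 : StrictMono (fun i => ρ g (A.orderEmbOfFin rfl i)) := by
    intro i j hij
    exact (ρ g).strictMono ((A.orderEmbOfFin rfl).strictMono hij)
  have h2 : (fun i => ρ g (A.orderEmbOfFin rfl i)) = A.orderEmbOfFin rfl := by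
    rw [← StrictMono.range_inj h1 (A.orderEmbOfFin rfl).strictMono]
    rw [Finset.range_orderEmbOfFin]
    have : Set.range (fun i => ρ g (A.orderEmbOfFin rfl i)) =
        (ρ g) '' Set.range (A.orderEmbOfFin rfl) := by
      rw [← Set.range_comp]
      rfl
    rw [this, Finset.range_orderEmbOfFin, ← Finset.coe_image, himg]
  intro a ha
  have h3 : a ∈ Set.range (A.orderEmbOfFin rfl) := by
    rw [Finset.range_orderEmbOfFin]
    exact ha
  obtain ⟨i, rfl⟩ := h3
  exact congrFun h2 i

/-- In a group where any two elements commute with a common non-trivial element there is no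
sharply `k`-transitive order action for `k ≥ 2`. -/
theorem no_action (hG : ∀ g h : G, ∃ v : G, v ≠ 1 ∧ v * g = g * v ∧ v * h = h * v) (k : ℕ)
    (hk : 2 ≤ k) : ¬ HasSharplyTransitiveAction G k := by
  classical
  rintro ⟨ρ, hρ⟩
  obtain ⟨n, rfl⟩ := Nat.exists_eq_add_of_le' hk
  -- a set with `k - 1` elements
  let A : Finset ℚ := (Finset.range (n + 1)).image (fun i : ℕ => (i : ℚ))
  have hinj : Function.Injective (fun i : ℕ => (i : ℚ)) := Nat.cast_injective
  have hA : A.card = n + 1 := by
    rw [Finset.card_image_of_injective _ hinj, Finset.card_range]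
  have hmemA : ∀ q : ℚ, q ∈ A ↔ ∃ i : ℕ, i < n + 1 ∧ (i : ℚ) = q := by
    intro q
    simp [A]
  -- uniqueness of the element
  have huniq : ∀ (z : ℚ), z ∉ A → ∀ g : G, (∀ a ∈ A, ρ g a = a) → ρ g z = z → g = 1 := by
    intro z hz g hg hgz
    have hcard : (insert z A).card = n + 2 := by
      rw [Finset.card_insert_of_notMem hz, hA]
    obtain ⟨g0, _, hg0⟩ := hρ (insert z A) (insert z A) hcard hcard
    have e1 : g = g0 := by
      apply hg0
      rw [Finset.image_insert, hgz]
      congr 1
      rw [Finset.image_congr (g := id) (fun a ha => hg a ha), Finset.image_id]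
    have e2 : (1 : G) = g0 := by
      apply hg0
      rw [map_one]
      ext x
      simp
    rw [e1, ← e2]
  -- fixed points of nontrivial elements fixing `A`
  have hfix : ∀ g : G, g ≠ 1 → (∀ a ∈ A, ρ g a = a) → ∀ z, ρ g z = z → z ∈ A := by
    intro g hg1 hg z hz
    by_contra hzA
    exact hg1 (huniq z hzA g hg hz)
  have hcomm : ∀ g c : G, g ≠ 1 → (∀ a ∈ A, ρ g a = a) → c * g = g * c →
      ∀ a ∈ A, ρ c a = a := by
    intro g c hg1 hg hc
    apply fix_of_image_eq
    intro a ha
    apply hfix g hg1 hg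
    have h1 : ρ (g * c) a = ρ (c * g) a := by rw [hc]
    rw [map_mul, map_mul] at h1
    change ρ g (ρ c a) = ρ c (ρ g a) at h1
    rw [h1, hg a ha]
  -- an element fixing exactly `A`
  obtain ⟨g, hg1, hg⟩ : ∃ g : G, g ≠ 1 ∧ ∀ a ∈ A, ρ g a = a := by
    have hx : ((n + 1 : ℕ) : ℚ) ∉ A := by
      rw [hmemA]
      rintro ⟨i, hi, h⟩
      have := hinj h
      omega
    have hy : ((n + 2 : ℕ) : ℚ) ∉ A := by
      rw [hmemA]
      rintro ⟨i, hi, h⟩
      have := hinj h
      omega
    have hc1 : (insert ((n + 1 : ℕ) : ℚ) A).card = n + 2 := by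
      rw [Finset.card_insert_of_notMem hx, hA]
    have hc2 : (insert ((n + 2 : ℕ) : ℚ) A).card = n + 2 := by
      rw [Finset.card_insert_of_notMem hy, hA]
    obtain ⟨g, hg, _⟩ := hρ _ _ hc1 hc2
    -- two strictly increasing enumerations
    let f1 : Fin (n + 2) → ℚ := fun i => (i.val : ℚ)
    let f2 : Fin (n + 2) → ℚ := fun i => if i.val < n + 1 then (i.val : ℚ) else ((n + 2 : ℕ) : ℚ)
    have hf1 : StrictMono f1 := by
      intro i j hij
      simp only [f1]
      exact_mod_cast hij
    have hf2 : StrictMono f2 := by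
      intro i j hij
      have hij' : i.val < j.val := hij
      have := j.isLt
      simp only [f2]
      rw [if_pos (by omega)]
      split_ifs with h
      · exact_mod_cast hij'
      · have : i.val < n + 2 := by omega
        exact_mod_cast this
    have hr1 : Set.range f1 = ((insert ((n + 1 : ℕ) : ℚ) A : Finset ℚ) : Set ℚ) := by
      ext q
      rw [Finset.mem_coe, Finset.mem_insert, hmemA]
      constructor
      · rintro ⟨i, rfl⟩
        by_cases hi : i.val < n + 1
        · exact Or.inr ⟨i.val, hi, rfl⟩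
        · left
          have : i.val = n + 1 := by omega
          simp only [f1]
          rw [this]
      · rintro (rfl | ⟨i, hi, rfl⟩)
        · exact ⟨⟨n + 1, by omega⟩, rfl⟩
        · exact ⟨⟨i, by omega⟩, rfl⟩
    have hr2 : Set.range f2 = ((insert ((n + 2 : ℕ) : ℚ) A : Finset ℚ) : Set ℚ) := by
      ext q
      rw [Finset.mem_coe, Finset.mem_insert, hmemA]
      constructor
      · rintro ⟨i, rfl⟩
        by_cases hi : i.val < n + 1
        · right
          exact ⟨i.val, hi, by simp only [f2]; rw [if_pos hi]⟩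
        · left
          simp only [f2]
          rw [if_neg hi]
      · rintro (rfl | ⟨i, hi, rfl⟩)
        · exact ⟨⟨n + 1, by omega⟩, by simp only [f2]; rw [if_neg (by omega)]⟩
        · exact ⟨⟨i, by omega⟩, by simp only [f2]; rw [if_pos hi]⟩
    have hf3 : StrictMono (fun i => ρ g (f1 i)) := fun i j hij => (ρ g).strictMono (hf1 hij)
    have h12 : (fun i => ρ g (f1 i)) = f2 := by
      rw [← StrictMono.range_inj hf3 hf2, hr2, ← hg, Finset.coe_image, ← hr1, ← Set.range_comp]
      rfl
    refine ⟨g, ?_, ?_⟩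
    · rintro rfl
      have := congrFun h12 ⟨n + 1, by omega⟩
      simp only [map_one, f1, f2] at this
      rw [if_neg (by omega)] at this
      have h3 : ((n + 1 : ℕ) : ℚ) = ((n + 2 : ℕ) : ℚ) := this
      have := hinj h3
      omega
    · intro a ha
      rw [hmemA] at ha
      obtain ⟨i, hi, rfl⟩ := ha
      have := congrFun h12 ⟨i, by omega⟩
      simp only [f1, f2] at this
      rw [if_pos hi] at this
      exact this
  have hall : ∀ h : G, ∀ a ∈ A, ρ h a = a := by
    intro h
    obtain ⟨v, hv1, hvg, hvh⟩ := hG g h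
    have h1 := hcomm g v hg1 hg hvg
    exact hcomm v h hv1 h1 hvh.symm
  -- transitivity fails
  have h0A : (0 : ℚ) ∈ A := by
    rw [hmemA]
    exact ⟨0, by omega, by simp⟩
  let B1 : Finset ℚ := (Finset.range (n + 2)).image (fun i : ℕ => (i : ℚ))
  let B2 : Finset ℚ := (Finset.range (n + 2)).image (fun i : ℕ => ((i + 1 : ℕ) : ℚ))
  have hB1 : B1.card = n + 2 := by
    rw [Finset.card_image_of_injective _ hinj, Finset.card_range]
  have hB2 : B2.card = n + 2 := by
    rw [Finset.card_image_of_injective, Finset.card_range]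
    intro i j hij
    have := hinj hij
    omega
  obtain ⟨h, hh, _⟩ := hρ B1 B2 hB1 hB2
  have h0 : (0 : ℚ) ∈ B1 := by
    simp only [B1, Finset.mem_image, Finset.mem_range]
    exact ⟨0, by omega, by simp⟩
  have h1 : ρ h 0 ∈ B2 := by
    rw [← hh]
    exact Finset.mem_image_of_mem _ h0
  rw [hall h 0 h0A] at h1
  simp only [B2, Finset.mem_image, Finset.mem_range] at h1
  obtain ⟨i, _, hi⟩ := h1
  have h2 : ((i + 1 : ℕ) : ℚ) = ((0 : ℕ) : ℚ) := by rw [hi]; simp
  have := hinj h2
  omega

end action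

/-! ### Right-angled Artin groups -/

section raag

variable {V : Type*} {Γ : SimpleGraph V}

/-- standard generator -/
def gen (Γ : SimpleGraph V) (u : V) : RAAG Γ := PresentedGroup.of u

lemma gen_comm {u v : V} (huv : Γ.Adj u v) : gen Γ u * gen Γ v = gen Γ v * gen Γ u := by
  have h : (FreeGroup.of u * FreeGroup.of v * (FreeGroup.of u)⁻¹ * (FreeGroup.of v)⁻¹) ∈
      raagRels Γ := ⟨u, v, huv, rfl⟩
  have h2 := PresentedGroup.one_of_mem h
  have h3 : gen Γ u * gen Γ v * (gen Γ u)⁻¹ * (gen Γ v)⁻¹ = 1 := by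
    simpa [gen, PresentedGroup.of] using h2
  rw [mul_inv_eq_one, mul_inv_eq_iff_eq_mul] at h3
  exact h3

/-- the homomorphism given by images of the generators -/
def lift {G : Type*} [Group G] (f : V → G)
    (h2 : ∀ u v, Γ.Adj u v → f u * f v = f v * f u) : RAAG Γ →* G :=
  PresentedGroup.toGroup (f := f) (by
    rintro r ⟨u, v, huv, rfl⟩
    simp only [map_mul, map_inv, FreeGroup.lift_apply_of]
    rw [mul_inv_eq_one, mul_inv_eq_iff_eq_mul]
    exact h2 u v huv)

@[simp] lemma lift_gen {G : Type*} [Group G] (f : V → G)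
    (h2 : ∀ u v, Γ.Adj u v → f u * f v = f v * f u) (u : V) :
    lift (Γ := Γ) f h2 (gen Γ u) = f u := by
  simp [lift, gen]

/-- the subgroup generated by a set of vertices -/
def Par (Γ : SimpleGraph V) (S : Set V) : Subgroup (RAAG Γ) := Subgroup.closure (gen Γ '' S)

lemma gen_mem {S : Set V} {u : V} (hu : u ∈ S) : gen Γ u ∈ Par Γ S :=
  Subgroup.subset_closure ⟨u, hu, rfl⟩

lemma par_mono {S T : Set V} (h : S ⊆ T) : Par Γ S ≤ Par Γ T :=
  Subgroup.closure_mono (Set.image_mono h)

lemma par_univ : Par Γ Set.univ = ⊤ := by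
  unfold Par
  rw [Set.image_univ]
  exact PresentedGroup.closure_range_of _

lemma par_induction {S : Set V} {p : RAAG Γ → Prop} (h1 : p 1) (hgen : ∀ u ∈ S, p (gen Γ u))
    (hmul : ∀ a b, p a → p b → p (a * b)) (hinv : ∀ a, p a → p a⁻¹) {g : RAAG Γ}
    (hg : g ∈ Par Γ S) : p g := by
  unfold Par at hg
  induction hg using Subgroup.closure_induction with
  | mem y hy =>
    obtain ⟨u, hu, rfl⟩ := hy
    exact hgen u hu
  | one => exact h1
  | mul a b _ _ ha hb => exact hmul a b ha hb
  | inv a _ ha => exact hinv a ha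

lemma exists_finite_support (g : RAAG Γ) : ∃ S : Set V, S.Finite ∧ g ∈ Par Γ S := by
  have hg : g ∈ Par Γ Set.univ := by rw [par_univ]; trivial
  refine par_induction (p := fun g => ∃ S : Set V, S.Finite ∧ g ∈ Par Γ S) ?_ ?_ ?_ ?_ hg
  · exact ⟨∅, Set.finite_empty, one_mem _⟩
  · intro u _
    exact ⟨{u}, Set.finite_singleton u, gen_mem rfl⟩
  · rintro a b ⟨S, hS, ha⟩ ⟨T, hT, hb⟩
    exact ⟨S ∪ T, hS.union hT, mul_mem (par_mono Set.subset_union_left ha)
      (par_mono Set.subset_union_right hb)⟩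
  · rintro a ⟨S, hS, ha⟩
    exact ⟨S, hS, inv_mem ha⟩

lemma comm_of_par {S : Set V} {w : V} (hw : ∀ s ∈ S, Γ.Adj s w) {g : RAAG Γ}
    (hg : g ∈ Par Γ S) : gen Γ w * g = g * gen Γ w := by
  refine par_induction (p := fun g => gen Γ w * g = g * gen Γ w) ?_ ?_ ?_ ?_ hg
  · simp
  · intro u hu
    exact (gen_comm (hw u hu)).symm
  · intro a b ha hb
    rw [← mul_assoc, ha, mul_assoc, hb, mul_assoc]
  · intro a ha
    have h : Commute (gen Γ w) a := ha
    exact h.inv_right

/-- infinite order -/
lemma gen_zpow (u : V) (n : ℤ) (h : gen Γ u ^ n = 1) : n = 0 := by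
  classical
  let f : V → Multiplicative ℤ := fun w => if w = u then Multiplicative.ofAdd 1 else 1
  have h1 := congrArg (lift (Γ := Γ) f (fun _ _ _ => mul_comm _ _)) h
  rw [map_zpow, lift_gen, map_one] at h1
  have hu : f u = Multiplicative.ofAdd 1 := if_pos rfl
  rw [hu, ← ofAdd_zsmul] at h1
  simpa using h1

/-- distinct non-adjacent generators do not commute -/
lemma not_comm {u v : V} (huv : u ≠ v) (h : ¬ Γ.Adj u v) :
    gen Γ u * gen Γ v ≠ gen Γ v * gen Γ u := by
  classical
  intro hc
  let f : V → Equiv.Perm (Fin 3) := fun w => if w = u then Equiv.swap 0 1 else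
    if w = v then Equiv.swap 1 2 else 1
  have hf : ∀ a b, Γ.Adj a b → f a * f b = f b * f a := by
    intro a b hab
    simp only [f]
    by_cases h1 : a = u
    · by_cases h2 : b = u
      · rw [h1, h2]
      · by_cases h3 : b = v
        · exfalso
          rw [h1, h3] at hab
          exact h hab
        · simp [h2, h3]
    · by_cases h2 : a = v
      · by_cases h3 : b = u
        · exfalso
          rw [h2, h3] at hab
          exact h hab.symm
        · by_cases h4 : b = v
          · rw [h2, h4]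
          · simp [h3, h4]
      · simp [h1, h2]
  have h1 := congrArg (lift (Γ := Γ) f hf) hc
  rw [map_mul, map_mul, lift_gen, lift_gen] at h1
  have hu : f u = Equiv.swap 0 1 := if_pos rfl
  have hv : f v = Equiv.swap 1 2 := by
    simp [f, huv.symm]
  rw [hu, hv] at h1
  exact absurd h1 (by decide)

section kill

open Classical in
/-- kill the generator `w` -/
noncomputable def kill (Γ : SimpleGraph V) (w : V) : RAAG Γ →* RAAG Γ :=
  lift (fun u => if u = w then 1 else gen Γ u) (by
    intro u v huv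
    by_cases h1 : u = w
    · simp [h1]
    · by_cases h2 : v = w
      · simp [h2]
      · simp only [h1, h2, if_false]
        exact gen_comm huv)

lemma kill_gen_self (w : V) : kill Γ w (gen Γ w) = 1 := by
  simp [kill]

lemma kill_gen_ne {w u : V} (h : u ≠ w) : kill Γ w (gen Γ u) = gen Γ u := by
  simp [kill, h]

lemma kill_eq_self {w : V} {S : Set V} (hw : w ∉ S) {g : RAAG Γ} (hg : g ∈ Par Γ S) :
    kill Γ w g = g := by
  refine par_induction (p := fun g => kill Γ w g = g) ?_ ?_ ?_ ?_ hg
  · simp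
  · intro u hu
    exact kill_gen_ne (fun h => hw (h ▸ hu))
  · intro a b ha hb
    rw [map_mul, ha, hb]
  · intro a ha
    rw [map_inv, ha]

lemma kill_mem {w : V} {S : Set V} {g : RAAG Γ} (hg : g ∈ Par Γ S) :
    kill Γ w g ∈ Par Γ (S \ {w}) := by
  refine par_induction (p := fun g => kill Γ w g ∈ Par Γ (S \ {w})) ?_ ?_ ?_ ?_ hg
  · rw [map_one]; exact one_mem _
  · intro u hu
    by_cases h : u = w
    · rw [h, kill_gen_self]; exact one_mem _
    · rw [kill_gen_ne h]
      exact gen_mem ⟨hu, h⟩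
  · intro a b ha hb
    rw [map_mul]; exact mul_mem ha hb
  · intro a ha
    rw [map_inv]; exact inv_mem ha

end kill

section coset

/-- translation of cosets, trivial on the second coordinate -/
def tr (C : Subgroup (RAAG Γ)) (g : RAAG Γ) : Equiv.Perm ((RAAG Γ ⧸ C) × Bool) :=
  (MulAction.toPerm g).prodCongr (Equiv.refl _)

lemma tr_apply (C : Subgroup (RAAG Γ)) (g : RAAG Γ) (x : RAAG Γ ⧸ C) (b : Bool) :
    tr C g (x, b) = (g • x, b) := rfl

lemma tr_mul (C : Subgroup (RAAG Γ)) (g h : RAAG Γ) : tr C (g * h) = tr C g * tr C h := by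
  ext1 ⟨x, b⟩
  rw [Equiv.Perm.mul_apply, tr_apply, tr_apply, tr_apply, mul_smul]

open Classical in
/-- the swap of the two points over the trivial coset -/
noncomputable def sw (C : Subgroup (RAAG Γ)) : Equiv.Perm ((RAAG Γ ⧸ C) × Bool) :=
  Equiv.swap (((1 : RAAG Γ) : RAAG Γ ⧸ C), false) (((1 : RAAG Γ) : RAAG Γ ⧸ C), true)

lemma tr_sw (C : Subgroup (RAAG Γ)) (g : RAAG Γ) (hg : g ∈ C) :
    tr C g * sw C = sw C * tr C g := by
  classical
  have h1 : g • ((1 : RAAG Γ) : RAAG Γ ⧸ C) = ((1 : RAAG Γ) : RAAG Γ ⧸ C) := by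
    rw [MulAction.Quotient.smul_coe, smul_eq_mul, mul_one, QuotientGroup.eq]
    simpa using hg
  have h2 : sw C = tr C g * sw C * (tr C g)⁻¹ := by
    unfold sw
    rw [← Equiv.swap_apply_apply, tr_apply, tr_apply, h1]
  rw [eq_comm, mul_inv_eq_iff_eq_mul] at h2
  exact h2

lemma mem_of_tr_sw (C : Subgroup (RAAG Γ)) (g : RAAG Γ) (h : tr C g * sw C = sw C * tr C g) :
    g ∈ C := by
  classical
  by_contra hg
  have h1 : g • ((1 : RAAG Γ) : RAAG Γ ⧸ C) ≠ ((1 : RAAG Γ) : RAAG Γ ⧸ C) := by
    rw [MulAction.Quotient.smul_coe, smul_eq_mul, mul_one, Ne, QuotientGroup.eq]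
    simpa using hg
  have h2 := congrArg (fun p => p (((1 : RAAG Γ) : RAAG Γ ⧸ C), false)) h
  simp only [Equiv.Perm.mul_apply, tr_apply] at h2
  have h3 : sw C (((1 : RAAG Γ) : RAAG Γ ⧸ C), false) = (((1 : RAAG Γ) : RAAG Γ ⧸ C), true) :=
    Equiv.swap_apply_left _ _
  have h4 : sw C (g • ((1 : RAAG Γ) : RAAG Γ ⧸ C), false) =
      (g • ((1 : RAAG Γ) : RAAG Γ ⧸ C), false) := by
    apply Equiv.swap_apply_of_ne_of_ne
    · intro h5; exact h1 (congrArg Prod.fst h5)
    · intro h5; exact h1 (congrArg Prod.fst h5)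
  rw [h3, h4, tr_apply] at h2
  exact absurd (congrArg Prod.snd h2) (by simp)

open Classical in
/-- the representation used to compute centralizers -/
noncomputable def rep (Γ : SimpleGraph V) (u : V) :
    RAAG Γ →* Equiv.Perm ((RAAG Γ ⧸ Par Γ (Γ.neighborSet u)) × Bool) :=
  lift (fun w => if w = u then sw (Par Γ (Γ.neighborSet u)) else
      tr (Par Γ (Γ.neighborSet u)) (gen Γ w)) (by
    intro a b hab
    by_cases h1 : a = u
    · by_cases h2 : b = u
      · rw [h1, h2]
      · simp only [h1, h2, if_true, if_false]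
        exact (tr_sw _ _ (gen_mem (by rw [← h1]; exact hab))).symm
    · by_cases h2 : b = u
      · simp only [h1, h2, if_true, if_false]
        exact tr_sw _ _ (gen_mem (by rw [← h2]; exact hab.symm))
      · simp only [h1, h2, if_false]
        rw [← tr_mul, ← tr_mul, gen_comm hab])

lemma rep_gen (u : V) : rep Γ u (gen Γ u) = sw (Par Γ (Γ.neighborSet u)) := by
  simp [rep]

lemma rep_of_mem {u : V} {S : Set V} (hu : u ∉ S) {g : RAAG Γ} (hg : g ∈ Par Γ S) :
    rep Γ u g = tr (Par Γ (Γ.neighborSet u)) g := by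
  refine par_induction (p := fun g => rep Γ u g = tr (Par Γ (Γ.neighborSet u)) g)
    ?_ ?_ ?_ ?_ hg
  · rw [map_one]
    ext1 ⟨x, b⟩
    rw [tr_apply, one_smul]
    rfl
  · intro w hw
    have : w ≠ u := fun h => hu (h ▸ hw)
    simp [rep, this]
  · intro a b ha hb
    rw [map_mul, ha, hb, tr_mul]
  · intro a ha
    rw [map_inv, ha]
    have : tr (Par Γ (Γ.neighborSet u)) (a⁻¹) * tr (Par Γ (Γ.neighborSet u)) a = 1 := by
      rw [← tr_mul, inv_mul_cancel]
      ext1 ⟨x, b⟩
      rw [tr_apply, one_smul]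
      rfl
    exact (eq_inv_of_mul_eq_one_left this).symm

/-- an element supported away from `u` and commuting with `u` is supported on the link of `u` -/
lemma mem_link {u : V} {S : Set V} (hu : u ∉ S) {g : RAAG Γ} (hg : g ∈ Par Γ S)
    (hc : g * gen Γ u = gen Γ u * g) : g ∈ Par Γ (Γ.neighborSet u) := by
  apply mem_of_tr_sw
  have h := congrArg (rep Γ u) hc
  rw [map_mul, map_mul, rep_gen, rep_of_mem hu hg] at h
  exact h

end coset

/-- the double centralizer of a generator -/
lemma double_centralizer (v : V)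
    (hΓ : ∀ w : V, w ≠ v → ∀ T : Set V, T.Finite → ∃ u, u ∉ T ∧ Γ.Adj v u ∧ ¬ Γ.Adj w u)
    (g : RAAG Γ) (hg : ∀ u, Γ.Adj v u → g * gen Γ u = gen Γ u * g) :
    g ∈ Subgroup.zpowers (gen Γ v) := by
  classical
  obtain ⟨S, hS, hgS⟩ := exists_finite_support g
  -- remove the vertices different from `v` one after the other
  have key : ∀ (n : ℕ) (S : Finset V), (S.erase v).card = n → g ∈ Par Γ (S : Set V) →
      g ∈ Par Γ ({v} : Set V) := by
    intro n
    induction n with
    | zero =>
      intro S hn hg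
      apply par_mono _ hg
      intro x hx
      by_contra hxv
      rw [Finset.card_eq_zero] at hn
      have : x ∈ S.erase v := Finset.mem_erase.mpr ⟨hxv, hx⟩
      rw [hn] at this
      simp at this
    | succ n ih =>
      intro S hn hgS
      have hne : (S.erase v).Nonempty := by
        rw [← Finset.card_pos]; omega
      obtain ⟨w, hw⟩ := hne
      rw [Finset.mem_erase] at hw
      obtain ⟨u, huT, hvu, hwu⟩ := hΓ w hw.1 (S : Set V) S.finite_toSet
      have h1 := mem_link huT hgS (hg u hvu)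
      have h2 : kill Γ w g = g := kill_eq_self (S := Γ.neighborSet u)
        (fun h => hwu (SimpleGraph.Adj.symm h)) h1
      have h3 : g ∈ Par Γ ((S : Set V) \ {w}) := by
        have := kill_mem (w := w) hgS
        rwa [h2] at this
      apply ih (S.erase w)
      · rw [Finset.erase_right_comm, Finset.card_erase_of_mem]
        · omega
        · rw [Finset.mem_erase]; exact hw
      · rwa [Finset.coe_erase]
  have h1 := key _ hS.toFinset rfl (by rwa [hS.coe_toFinset])
  unfold Par at h1
  rw [Set.image_singleton, ← Subgroup.zpowers_eq_closure] at h1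
  exact h1

/-- indecomposability -/
theorem indecomposable
    (h1 : ∀ v w : V, w ≠ v → ∀ T : Set V, T.Finite → ∃ u, u ∉ T ∧ Γ.Adj v u ∧ ¬ Γ.Adj w u)
    (h2 : ∀ v w : V, ∃ u, u ≠ v ∧ u ≠ w ∧ ¬ Γ.Adj u v ∧ ¬ Γ.Adj u w)
    {H₁ H₂ : Type*} [Group H₁] [Group H₂] [Infinite H₁] [Infinite H₂]
    (e : RAAG Γ ≃* H₁ × H₂) : False := by
  -- each generator lies in one of the factors
  have key : ∀ v : V, (e (gen Γ v)).1 = 1 ∨ (e (gen Γ v)).2 = 1 := by
    intro v
    have hc : ∀ x : RAAG Γ, x * gen Γ v = gen Γ v * x →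
        x * e.symm ((e (gen Γ v)).1, 1) = e.symm ((e (gen Γ v)).1, 1) * x ∧
        x * e.symm (1, (e (gen Γ v)).2) = e.symm (1, (e (gen Γ v)).2) * x := by
      intro x hx
      have h3 := congrArg e hx
      rw [map_mul, map_mul] at h3
      have h4 := congrArg Prod.fst h3
      have h5 := congrArg Prod.snd h3
      rw [Prod.fst_mul, Prod.fst_mul] at h4
      rw [Prod.snd_mul, Prod.snd_mul] at h5
      constructor
      · apply e.injective
        rw [map_mul, map_mul, e.apply_symm_apply]
        ext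
        · exact h4
        · simp
      · apply e.injective
        rw [map_mul, map_mul, e.apply_symm_apply]
        ext
        · simp
        · exact h5
    have ha := double_centralizer v (h1 v) (e.symm ((e (gen Γ v)).1, 1))
      (fun u hu => ((hc (gen Γ u) (gen_comm hu).symm).1).symm)
    have hb := double_centralizer v (h1 v) (e.symm (1, (e (gen Γ v)).2))
      (fun u hu => ((hc (gen Γ u) (gen_comm hu).symm).2).symm)
    rw [Subgroup.mem_zpowers_iff] at ha hb
    obtain ⟨i, hi⟩ := ha
    obtain ⟨j, hj⟩ := hb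
    have h6 : gen Γ v ^ (i * j) = 1 := by
      apply e.injective
      have e1 : e (gen Γ v ^ (i * j)) = ((e (gen Γ v)).1, 1) ^ j := by
        rw [zpow_mul, hi, map_zpow, e.apply_symm_apply]
      have e2 : e (gen Γ v ^ (i * j)) = (1, (e (gen Γ v)).2) ^ i := by
        rw [mul_comm, zpow_mul, hj, map_zpow, e.apply_symm_apply]
      rw [map_one]
      ext
      · rw [e2]
        simp
      · rw [e1]
        simp
    have h7 := gen_zpow v _ h6
    rcases mul_eq_zero.mp h7 with h8 | h8
    · left
      rw [h8, zpow_zero] at hi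
      have := congrArg e hi
      rw [e.apply_symm_apply, map_one] at this
      exact (congrArg Prod.fst this).symm
    · right
      rw [h8, zpow_zero] at hj
      have := congrArg e hj
      rw [e.apply_symm_apply, map_one] at this
      exact (congrArg Prod.snd this).symm
  -- all generators lie in the same factor
  have hsame : (∀ v : V, (e (gen Γ v)).1 = 1) ∨ (∀ v : V, (e (gen Γ v)).2 = 1) := by
    by_contra hcon
    push Not at hcon
    obtain ⟨⟨v, hv⟩, ⟨w, hw⟩⟩ := hcon
    obtain ⟨u, huv, huw, hauv, hauw⟩ := h2 v w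
    have hv2 := (key v).resolve_left hv
    have hw1 := (key w).resolve_right hw
    have hcomm : ∀ x y : RAAG Γ, (e x).1 = 1 → (e y).2 = 1 → x * y = y * x := by
      intro x y hx hy
      apply e.injective
      rw [map_mul, map_mul]
      ext
      · rw [Prod.fst_mul, Prod.fst_mul, hx, one_mul, mul_one]
      · rw [Prod.snd_mul, Prod.snd_mul, hy, one_mul, mul_one]
    rcases key u with h | h
    · exact not_comm huv hauv (hcomm _ _ h hv2)
    · exact not_comm huw hauw (hcomm _ _ hw1 h).symm
  have hcl : ∀ g : RAAG Γ, g ∈ Par Γ Set.univ := by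
    intro g; rw [par_univ]; trivial
  rcases hsame with h | h
  · have h3 : ∀ g : RAAG Γ, (e g).1 = 1 := by
      intro g
      refine par_induction (p := fun g => (e g).1 = 1) ?_ ?_ ?_ ?_ (hcl g)
      · simp
      · intro u _; exact h u
      · intro a b ha hb
        rw [map_mul, Prod.fst_mul, ha, hb, mul_one]
      · intro a ha
        rw [map_inv, Prod.fst_inv, ha, inv_one]
    obtain ⟨x, hx⟩ := exists_ne (1 : H₁)
    have := h3 (e.symm (x, 1))
    rw [e.apply_symm_apply] at this
    exact hx this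
  · have h3 : ∀ g : RAAG Γ, (e g).2 = 1 := by
      intro g
      refine par_induction (p := fun g => (e g).2 = 1) ?_ ?_ ?_ ?_ (hcl g)
      · simp
      · intro u _; exact h u
      · intro a b ha hb
        rw [map_mul, Prod.snd_mul, ha, hb, mul_one]
      · intro a ha
        rw [map_inv, Prod.snd_inv, ha, inv_one]
    obtain ⟨x, hx⟩ := exists_ne (1 : H₂)
    have := h3 (e.symm (1, x))
    rw [e.apply_symm_apply] at this
    exact hx this

end raag

/-! ### The graph -/

/-- the random (Rado) graph: `i` and `j` are adjacent if the `i`-th binary digit of `j` or the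
`j`-th binary digit of `i` is one -/
def rado : SimpleGraph ℕ where
  Adj i j := i ≠ j ∧ (j.testBit i = true ∨ i.testBit j = true)
  symm := ⟨fun _ _ h => ⟨h.1.symm, h.2.symm⟩⟩
  loopless := ⟨fun _ h => h.1 rfl⟩

lemma rado_cone (T : Set ℕ) (hT : T.Finite) : ∃ w, ∀ s ∈ T, rado.Adj s w := by
  obtain ⟨N, hN⟩ := hT.bddAbove
  refine ⟨2 ^ (N + 2) - 1, fun s hs => ?_⟩
  have h1 : s ≤ N := hN hs
  have h2 : N + 2 < 2 ^ (N + 2) := Nat.lt_two_pow_self
  refine ⟨by omega, Or.inl ?_⟩
  rw [Nat.testBit_two_pow_sub_one]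
  simp
  omega

lemma rado_sep (v w : ℕ) (hwv : w ≠ v) (T : Set ℕ) (hT : T.Finite) :
    ∃ u, u ∉ T ∧ rado.Adj v u ∧ ¬ rado.Adj w u := by
  obtain ⟨N, hN⟩ := hT.bddAbove
  obtain ⟨M, hM⟩ : ∃ M, M = N + v + w + 1 := ⟨_, rfl⟩
  have hbit : ∀ i, (2 ^ v ||| 2 ^ M).testBit i = (decide (v = i) || decide (M = i)) := by
    intro i
    rw [Nat.testBit_or, Nat.testBit_two_pow, Nat.testBit_two_pow]
  have hge : 2 ^ M ≤ 2 ^ v ||| 2 ^ M := by
    apply Nat.ge_two_pow_of_testBit
    rw [hbit]
    simp
  have hlt : M < 2 ^ M := Nat.lt_two_pow_self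
  refine ⟨2 ^ v ||| 2 ^ M, ?_, ⟨by omega, Or.inl ?_⟩, ?_⟩
  · intro hmem
    have := hN hmem
    omega
  · rw [hbit]
    simp
  · rintro ⟨_, h | h⟩
    · rw [hbit] at h
      have h3 : v ≠ w := fun h => hwv h.symm
      have h4 : M ≠ w := by omega
      simp [h3, h4] at h
    · have := Nat.ge_two_pow_of_testBit h
      have h5 : (2 ^ v ||| 2 ^ M) < 2 ^ (2 ^ v ||| 2 ^ M) := Nat.lt_two_pow_self
      omega

lemma rado_far (v w : ℕ) : ∃ u, u ≠ v ∧ u ≠ w ∧ ¬ rado.Adj u v ∧ ¬ rado.Adj u w := by
  obtain ⟨M, hM⟩ : ∃ M, M = v + w + 1 := ⟨_, rfl⟩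
  have hlt : M < 2 ^ M := Nat.lt_two_pow_self
  have h0 : ∀ x, x < M → ¬ rado.Adj (2 ^ M) x := by
    rintro x hx ⟨_, h | h⟩
    · have := Nat.ge_two_pow_of_testBit h
      have h5 : (2 ^ M) < 2 ^ (2 ^ M) := Nat.lt_two_pow_self
      omega
    · rw [Nat.testBit_two_pow] at h
      simp at h
      omega
  exact ⟨2 ^ M, by omega, by omega, h0 v (by omega), h0 w (by omega)⟩

/-- The right-angled Artin group of the (countable) random graph is not cyclic, is not a direct
product of two infinite groups, and has no sharply `k`-transitive action on `(ℚ, <)` for any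
`k ≥ 2`. -/
theorem result.{u, v} : ∃ Γ : SimpleGraph ℕ, ¬ IsCyclic (RAAG Γ) ∧
    (∀ (H₁ : Type u) (H₂ : Type v) [Group H₁] [Group H₂] [Infinite H₁] [Infinite H₂],
      IsEmpty (RAAG Γ ≃* H₁ × H₂)) ∧
    ∀ k : ℕ, 2 ≤ k → ¬ HasSharplyTransitiveAction (RAAG Γ) k := by
  refine ⟨rado, ?_, ?_, ?_⟩
  · intro hcyc
    obtain ⟨u, hu0, _, hadj, _⟩ := rado_far 0 0
    have hc : gen rado u * gen rado 0 = gen rado 0 * gen rado u := by
      have := IsCyclic.isMulCommutative (α := RAAG rado)
      exact this.is_comm.comm _ _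
    exact not_comm hu0 hadj hc
  · intro H₁ H₂ _ _ _ _
    exact ⟨fun e => indecomposable (fun v w => rado_sep v w) (fun v w => rado_far v w) e⟩
  · intro k hk
    apply no_action _ k hk
    intro g h
    obtain ⟨S, hS, hg⟩ := exists_finite_support g
    obtain ⟨T, hT, hh⟩ := exists_finite_support h
    obtain ⟨w, hw⟩ := rado_cone (S ∪ T) (hS.union hT)
    refine ⟨gen rado w, ?_, ?_, ?_⟩
    · intro h1
      have := gen_zpow (Γ := rado) w 1 (by rw [zpow_one, h1])
      omega
    · exact comm_of_par (fun s hs => hw s (Or.inl hs)) hg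
    · exact comm_of_par (fun s hs => hw s (Or.inr hs)) hh

end Pool.Agent.Results.MP_781439_al.RadoGraph
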